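import Pool.Agent.Lib_MP_7ba156_pc.Barrier

set_option autoImplicit false

namespace Pool.Agent.Results.MP_7ba156_nt.BeurlingTwists

/-- `f q` is the generalised prime following the generalised prime `f p` -/
def IsGap (f : ℕ →*₀ ℝ) (p q : ℕ) : Prop :=
  p.Prime ∧ q.Prime ∧ f p < f q ∧ ∀ r : ℕ, r.Prime → f r ≤ f p ∨ f q ≤ f r

/-- `χ` is completely multiplicative (with `χ 0 = 0`) and bounded by `1`, for instance a Dirichlet character. -/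
def IsTwist (χ : ℕ →*₀ ℂ) : Prop := ∀ n, ‖χ n‖ ≤ 1

/-- The system with the generalised primes `f p`, `p` prime, and the generalised integers `f n`,
`n > 0`, is close to the primes and the integers, up to `M x` and `x ^ (θ + ε)` respectively, with all twists. -/
structure Close (θ : ℝ) (M : ℝ → ℝ) (f : ℕ →*₀ ℝ) : Prop where
  moved : ∀ p : ℕ, p.Prime → 1 < f p ∧ |f p - p| ≤ M p * Real.log p
  finite : ∀ x : ℝ, {n : ℕ | f n ≤ x}.Finite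
  primes : ∀ x : ℝ, 2 ≤ x → (({p : ℕ | p.Prime ∧ ¬ (f p ≤ x ↔ (p : ℝ) ≤ x)} : Set ℕ).ncard : ℝ) ≤ M x
  integers : ∀ ε > 0, ∃ C : ℝ, ∀ x : ℝ, 1 ≤ x →
    |(({n : ℕ | 0 < n ∧ f n ≤ x} : Set ℕ).ncard : ℝ) - x| ≤ C * x ^ (θ + ε)
  twists : ∃ D : (ℕ →*₀ ℂ) → ℂ → ℂ,
    (∀ ε > 0, ∃ C > 0, ∀ χ, IsTwist χ → ∀ s : ℂ, θ + ε ≤ s.re → 1 / C ≤ ‖D χ s‖ ∧ ‖D χ s‖ ≤ C) ∧
    ∀ χ, IsTwist χ → DifferentiableOn ℂ (D χ) {s | θ < s.re} ∧
      ∀ s : ℂ, 1 < s.re → HasSum (fun n : ℕ => χ n * ((f n : ℝ) : ℂ) ^ (-s))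
        ((∑' n : ℕ, χ n * (n : ℂ) ^ (-s)) * D χ s)

/-- Generalised primes as close to the primes as one likes, with long gaps: gaps of the size `M x log x / 300` occur
although at most `M x` primes change sides of `x`, the counting function of the generalised integers is `x + O(x ^ (θ + ε))`,
and the `L`-functions of all Dirichlet characters (all twists) are the classical ones up to factors without zeros in
`re s > θ`. In particular the analogue of Q1 fails for a system with `θ = 0`. -/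
theorem result :
    (∀ (θ : ℝ) (M : ℝ → ℝ), 0 ≤ θ → θ < 1 → MonotoneOn M (Set.Ici 2) → (∀ x, 2 ≤ x → 1 ≤ M x) →
      (∀ ε > 0, ∃ C, ∀ x, 2 ≤ x → M x ≤ C * x ^ (θ + ε)) →
      ∃ f : ℕ →*₀ ℝ, Close θ M f ∧ ∀ Y : ℝ, ∃ p q : ℕ, IsGap f p q ∧ Y ≤ f p ∧
        M (f p) * Real.log (f p) / 300 ≤ f q - f p) ∧
    ∃ f : ℕ →*₀ ℝ, Close 0 (fun x => Real.exp (Real.sqrt (Real.log x))) f ∧
      ∀ t Y : ℝ, ∃ p q : ℕ, IsGap f p q ∧ Y ≤ f p ∧ (Real.log (f p)) ^ t < f q - f p := by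
  have main : ∀ (θ : ℝ) (M : ℝ → ℝ), 0 ≤ θ → θ < 1 → MonotoneOn M (Set.Ici 2) →
      (∀ x, 2 ≤ x → 1 ≤ M x) → (∀ ε > 0, ∃ C, ∀ x, 2 ≤ x → M x ≤ C * x ^ (θ + ε)) →
      ∃ f : ℕ →*₀ ℝ, Close θ M f ∧ ∀ Y : ℝ, ∃ p q : ℕ, IsGap f p q ∧ Y ≤ f p ∧
        M (f p) * Real.log (f p) / 300 ≤ f q - f p := by
    intro θ M hθ0 hθ1 hmono hM1 hM
    obtain ⟨f, h1, h2, h3, h4, h5, h6⟩ := BG.main_twists θ hθ0 hθ1 M hmono hM1 hM
    refine ⟨f, ⟨h1, h2, h3, h4, h5⟩, fun Y => ?_⟩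
    obtain ⟨p, q, hp, hq, hY, hpq, hgap, hr⟩ := h6 Y
    exact ⟨p, q, ⟨hp, hq, hpq, hr⟩, hY, hgap⟩
  refine ⟨main, ?_⟩
  obtain ⟨f, hf, hgap⟩ := main 0 (fun x => Real.exp (Real.sqrt (Real.log x))) le_rfl one_pos
    (fun x hx y _ hxy => Real.exp_le_exp.2 (Real.sqrt_le_sqrt
      (Real.log_le_log (zero_lt_two.trans_le hx) hxy)))
    (fun x _ => Real.one_le_exp (Real.sqrt_nonneg _)) (fun ε hε => BG.slow ε hε)
  refine ⟨f, hf, fun t Y => ?_⟩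
  obtain ⟨Y', hY'⟩ := BG.fast t
  obtain ⟨p, q, h1, h2, h3⟩ := hgap (max Y Y')
  exact ⟨p, q, h1, (le_max_left _ _).trans h2, (hY' _ ((le_max_right _ _).trans h2)).trans_le h3⟩

end Pool.Agent.Results.MP_7ba156_nt.BeurlingTwists
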