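import Pool.Agent.Lib_MP_7ba156_pc.Win

/-!
# MP_7ba156_nt: the number of primes in every translate of almost every cube of intervals modulo `N`
-/

set_option autoImplicit false

namespace Pool.Agent.Results.MP_7ba156_nt.CubeCount

/-- The number of pairs `(ε, j)`, `ε ∈ {0, 1} ^ k`, `0 ≤ j < L`, such that the representative in `[0, N)` of the residue
`n + ε₁ d₁ + ... + ε_k d_k + j` modulo `N` is prime. -/
noncomputable def primesIn (N L k : ℕ) (d : Fin k → ZMod N) (n : ZMod N) : ℕ :=
  Nat.card {u : (Fin k → Fin 2) × Fin L // (n + ∑ i, (u.1 i : ℕ) • d i + ((u.2 : ℕ) : ZMod N)).val.Prime}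

/-- The number of the vectors `ε ∈ {0, 1} ^ k` such that one of the `L` residues `n + ε₁ d₁ + ... + ε_k d_k + j`,
`0 ≤ j < L`, has a representative in `[0, N)` which is prime. -/
noncomputable def windows (N L k : ℕ) (d : Fin k → ZMod N) (n : ZMod N) : ℕ :=
  Nat.card {ε : Fin k → Fin 2 // ∃ j : ℕ, j < L ∧ (n + ∑ i, (ε i : ℕ) • d i + (j : ZMod N)).val.Prime}

/-- The expected number `2 ^ k L π / N` of primes, `π` the number of primes less than `N`. -/
noncomputable def expected (N L k : ℕ) : ℝ := 2 ^ k * L * Nat.primeCounting' N / N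

/-- The error term `√(K 2 ^ k L (1 + L / log N))`. -/
noncomputable def err (N L k : ℕ) (K : ℝ) : ℝ := √(K * (2 ^ k * L) * (1 + L / Real.log N))

/-- For all but at most `N ^ k / K` of the `k`-tuples `d` of residues modulo `N`, every translate of the cube of intervals
contains the expected number of primes up to `C √(K 2 ^ k L (1 + L / log N))` (and up to `C L log N` more, from above), and,
for `L ≤ log N`, at least `2 ^ k L / (C log N) - C K log N` of its intervals contain a prime. -/
theorem result : ∃ C : ℝ, 0 < C ∧ ∀ N : ℕ, 3 ≤ N → ∀ L : ℕ, 1 ≤ L → L ^ 2 ≤ N → ∀ k : ℕ, ∀ K : ℝ, 0 < K →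
    (Nat.card {d : Fin k → ZMod N // ¬ ∀ n : ZMod N,
        (expected N L k - C * err N L k K ≤ primesIn N L k d n ∧
          (primesIn N L k d n : ℝ) ≤ expected N L k + C * (err N L k K + L * Real.log N)) ∧
        ((L : ℝ) ≤ Real.log N → 2 ^ k * L / (C * Real.log N) - C * K * Real.log N ≤ windows N L k d n)} : ℝ) ≤
      (N : ℝ) ^ k / K := by
  obtain ⟨C, hC, h⟩ := Pool.MP_7ba156_nt.PC.main2
  refine ⟨C, hC, fun N hN L hL hLN k K hK => ?_⟩
  rw [le_div_iff₀ hK]
  exact h N hN L hL hLN k K hK

end Pool.Agent.Results.MP_7ba156_nt.CubeCount
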