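import Pool.Agent.Lib_MP_d5b6a6.Rough

/-!
# MP_7ba156_nt: almost primes in intervals of length `(log x) ^ t`
-/

set_option autoImplicit false

namespace Pool.Agent.Results.MP_7ba156_nt.FewFactors

open Finset Pool.Agent.LongRun

/-- the prime factors up to `h` of the elements of a block of length `h` -/
theorem small_sum (a h : ℕ) (R : Finset ℕ) (hR : R ⊆ Ico a (a + h)) :
    ∑ n ∈ R, ((n.primeFactors.filter (fun p => p ≤ h)).card : ℝ) ≤ h * (2 + Real.log h) := by
  calc ∑ n ∈ R, ((n.primeFactors.filter (fun p => p ≤ h)).card : ℝ)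
      ≤ ∑ n ∈ Ico a (a + h), ((n.primeFactors.filter (fun p => p ≤ h)).card : ℝ) :=
        Finset.sum_le_sum_of_subset_of_nonneg hR fun n _ _ => Nat.cast_nonneg _
    _ ≤ ∑ n ∈ Ico a (a + h), ∑ d ∈ Icc 1 h, (if d ∣ n then (1 : ℝ) else 0) := by
        refine Finset.sum_le_sum fun n hn => ?_
        rw [Finset.sum_boole]
        have h1 : n.primeFactors.filter (fun p => p ≤ h) ⊆ (Icc 1 h).filter (fun d => d ∣ n) := by
          intro p hp
          rw [Finset.mem_filter, Nat.mem_primeFactors] at hp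
          rw [Finset.mem_filter, Finset.mem_Icc]
          exact ⟨⟨hp.1.1.one_le, hp.2⟩, hp.1.2.1⟩
        exact_mod_cast Finset.card_le_card h1
    _ = ∑ d ∈ Icc 1 h, (((Ico a (a + h)).filter (fun n => d ∣ n)).card : ℝ) := by
        rw [Finset.sum_comm]
        refine Finset.sum_congr rfl fun d _ => ?_
        rw [Finset.sum_boole]
    _ ≤ ∑ d ∈ Icc 1 h, ((h : ℝ) * ((d : ℝ))⁻¹ + 1) := by
        refine Finset.sum_le_sum fun d hd => ?_
        have h1 := (abs_le.1 (block_count a h d (Finset.mem_Icc.1 hd).1)).2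
        rw [div_eq_mul_inv] at h1
        linarith
    _ = h * ((harmonic h : ℚ) : ℝ) + h := by
        rw [Finset.sum_add_distrib, ← Finset.mul_sum, harmonic_eq_sum_Icc]
        push_cast
        simp
    _ ≤ h * (2 + Real.log h) := by
        have h1 := harmonic_le_one_add_log h
        have h2 : (0 : ℝ) ≤ h := Nat.cast_nonneg h
        nlinarith

/-- the prime factors above `h` of the elements of a block of length `h` are distinct -/
theorem large_sum (a h : ℕ) (ha : 1 ≤ a) (R : Finset ℕ) (hR : R ⊆ Ico a (a + h)) (X V : ℝ)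
    (hX : ∀ n ∈ R, (n : ℝ) ≤ X) (hV : 1 ≤ V) :
    (∑ n ∈ R, ((n.primeFactors.filter (fun p => ¬ p ≤ h)).card : ℝ) - V) * Real.log V ≤
      R.card * Real.log X := by
  classical
  have hdisj : ∀ n ∈ R, ∀ m ∈ R, n ≠ m → Disjoint (n.primeFactors.filter (fun p => ¬ p ≤ h))
      (m.primeFactors.filter (fun p => ¬ p ≤ h)) := by
    intro n hn m hm hnm
    rw [Finset.disjoint_left]
    intro p hp hp'
    rw [Finset.mem_filter, Nat.mem_primeFactors] at hp hp'
    have h1 := Finset.mem_Ico.1 (hR hn)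
    have h2 := Finset.mem_Ico.1 (hR hm)
    rcases lt_or_gt_of_ne hnm with h3 | h3
    · have h4 : p ∣ m - n := Nat.dvd_sub hp'.1.2.1 hp.1.2.1
      have h5 := Nat.le_of_dvd (by omega) h4
      have h6 := hp.2
      omega
    · have h4 : p ∣ n - m := Nat.dvd_sub hp.1.2.1 hp'.1.2.1
      have h5 := Nat.le_of_dvd (by omega) h4
      have h6 := hp.2
      omega
  set T : Finset ℕ := R.biUnion (fun n => n.primeFactors.filter (fun p => ¬ p ≤ h)) with hT
  have hTc : (T.card : ℝ) = ∑ n ∈ R, ((n.primeFactors.filter (fun p => ¬ p ≤ h)).card : ℝ) := by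
    rw [hT, Finset.card_biUnion hdisj]
    push_cast
    rfl
  have hlogV : 0 ≤ Real.log V := Real.log_nonneg hV
  have hcard : (T.card : ℝ) - V ≤ ((T.filter (fun p : ℕ => V < (p : ℝ))).card : ℝ) := by
    have h1 : (T.filter (fun p : ℕ => ¬ V < (p : ℝ))) ⊆ Icc 1 ⌊V⌋₊ := by
      intro p hp
      rw [Finset.mem_filter, not_lt] at hp
      rw [Finset.mem_Icc]
      refine ⟨?_, Nat.le_floor hp.2⟩
      obtain ⟨n, -, hn⟩ := Finset.mem_biUnion.1 hp.1
      rw [Finset.mem_filter, Nat.mem_primeFactors] at hn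
      exact hn.1.1.one_le
    have h2 : ((T.filter (fun p : ℕ => ¬ V < (p : ℝ))).card : ℝ) ≤ V := by
      have h3 := Finset.card_le_card h1
      rw [Nat.card_Icc, Nat.add_sub_cancel] at h3
      have h4 : ((⌊V⌋₊ : ℕ) : ℝ) ≤ V := Nat.floor_le (by linarith)
      exact le_trans (by exact_mod_cast h3) h4
    have h3 : ((T.filter (fun p : ℕ => V < (p : ℝ))).card : ℝ) +
        ((T.filter (fun p : ℕ => ¬ V < (p : ℝ))).card : ℝ) = T.card := by
      exact_mod_cast Finset.card_filter_add_card_filter_not (s := T) (fun p : ℕ => V < (p : ℝ))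
    linarith
  have hTpos : ∀ p ∈ T, 0 ≤ Real.log (p : ℝ) := fun p _ => Real.log_natCast_nonneg p
  rw [← hTc]
  calc ((T.card : ℝ) - V) * Real.log V ≤ ((T.filter (fun p : ℕ => V < (p : ℝ))).card : ℝ) * Real.log V :=
        mul_le_mul_of_nonneg_right hcard hlogV
    _ = ∑ p ∈ T.filter (fun p : ℕ => V < (p : ℝ)), Real.log V := by
        rw [Finset.sum_const, nsmul_eq_mul]
    _ ≤ ∑ p ∈ T.filter (fun p : ℕ => V < (p : ℝ)), Real.log (p : ℝ) := by
        refine Finset.sum_le_sum fun p hp => ?_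
        rw [Finset.mem_filter] at hp
        exact Real.log_le_log (by linarith) hp.2.le
    _ ≤ ∑ p ∈ T, Real.log (p : ℝ) :=
        Finset.sum_le_sum_of_subset_of_nonneg (Finset.filter_subset _ _)
          fun p hp _ => hTpos p hp
    _ = ∑ n ∈ R, ∑ p ∈ n.primeFactors.filter (fun p => ¬ p ≤ h), Real.log (p : ℝ) := by
        rw [hT, Finset.sum_biUnion hdisj]
    _ ≤ ∑ _n ∈ R, Real.log X := by
        refine Finset.sum_le_sum fun n hn => ?_
        have hn1 : 1 ≤ n := ha.trans (Finset.mem_Ico.1 (hR hn)).1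
        have h1 : ∏ p ∈ n.primeFactors.filter (fun p => ¬ p ≤ h), p ∣ n :=
          dvd_trans (Finset.prod_dvd_prod_of_subset _ _ _ (Finset.filter_subset _ _))
            (Nat.prod_primeFactors_dvd n)
        have h2 : ∏ p ∈ n.primeFactors.filter (fun p => ¬ p ≤ h), p ≤ n :=
          Nat.le_of_dvd (by omega) h1
        have h3 : ∑ p ∈ n.primeFactors.filter (fun p => ¬ p ≤ h), Real.log (p : ℝ) =
            Real.log ((∏ p ∈ n.primeFactors.filter (fun p => ¬ p ≤ h), p : ℕ) : ℝ) := by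
          push_cast
          rw [Real.log_prod]
          intro p hp
          rw [Finset.mem_filter, Nat.mem_primeFactors] at hp
          exact_mod_cast hp.1.1.ne_zero
        rw [h3]
        have h4 : 0 < ∏ p ∈ n.primeFactors.filter (fun p => ¬ p ≤ h), p := by
          refine Finset.prod_pos fun p hp => ?_
          rw [Finset.mem_filter, Nat.mem_primeFactors] at hp
          exact hp.1.1.pos
        refine Real.log_le_log (by exact_mod_cast h4) ?_
        exact le_trans (by exact_mod_cast h2) (hX n hn)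
    _ = R.card * Real.log X := by
        rw [Finset.sum_const, nsmul_eq_mul]

/-- the inequalities needed in the final argument, for large `u = log x` -/
theorem asymp (t ε a0 c4 H0 : ℝ) (ht : 0 < t) (hε : 0 < ε) (ha0 : 0 < a0) (hc4 : 0 < c4) :
    ∃ δ : ℝ, 0 < δ ∧ δ ≤ 1 / 4 ∧
      1 + (t + 1) * ε / 4 ≤ (1 + (t + 1) * ε / 2) * (1 - δ) * (1 - δ) ∧
    ∀ᶠ u : ℝ in Filter.atTop, Real.exp 1 ≤ u ∧ 1 ≤ Real.log u ∧ max H0 2 + 1 ≤ u ^ t ∧
      t * Real.log u * (2 + t * Real.log u) / c4 ≤ ε / 2 * (u / Real.log u) ∧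
      (1 - δ) * ((t + 1) * Real.log u) ≤
        (t + 1) * Real.log u - 3 * Real.log (Real.log u) +
          Real.log (c4 / (2 * t * (t + 1))) ∧
      1 / Real.log u ≤ δ ∧
      Real.log 2 < (t + 1) * ε / 4 * u ∧
      (2 : ℝ) ^ a0 ≤ u ^ (a0 / 2 * t) := by
  obtain ⟨e, he⟩ : ∃ e : ℝ, e = (t + 1) * ε / 2 := ⟨_, rfl⟩
  have he0 : 0 < e := by rw [he]; positivity
  obtain ⟨δ, hδ⟩ : ∃ δ : ℝ, δ = min (1 / 4) (e / (8 * (1 + e))) := ⟨_, rfl⟩
  have hδ0 : 0 < δ := by rw [hδ]; exact lt_min (by norm_num) (by positivity)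
  have hδ1 : δ ≤ 1 / 4 := by rw [hδ]; exact min_le_left _ _
  have hδ2 : δ * (8 * (1 + e)) ≤ e := by
    have h1 : δ ≤ e / (8 * (1 + e)) := by rw [hδ]; exact min_le_right _ _
    rwa [le_div_iff₀ (by positivity)] at h1
  refine ⟨δ, hδ0, hδ1, ?_, ?_⟩
  · have h1 : (t + 1) * ε / 4 = e / 2 := by rw [he]; ring
    rw [← he, h1]
    nlinarith [sq_nonneg δ, mul_nonneg he0.le (sq_nonneg δ)]
  have hll : Filter.Tendsto Real.log Filter.atTop Filter.atTop := Real.tendsto_log_atTop
  have t1 : Filter.Tendsto (fun u : ℝ => Real.log u ^ 3 / u) Filter.atTop (nhds 0) := by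
    have h1 : (fun x : ℝ => Real.log x ^ 3) =o[Filter.atTop] id := Real.isLittleO_pow_log_id_atTop
    exact h1.tendsto_div_nhds_zero
  have t2 : Filter.Tendsto (fun v : ℝ => Real.log v / v ^ (1 : ℝ)) Filter.atTop (nhds 0) :=
    (isLittleO_log_rpow_atTop zero_lt_one).tendsto_div_nhds_zero
  have e1 : ∀ᶠ v : ℝ in Filter.atTop, Real.log v ≤ δ * (t + 1) / 6 * v := by
    filter_upwards [t2.eventually_le_const (show (0 : ℝ) < δ * (t + 1) / 6 by positivity),
      Filter.eventually_gt_atTop 0] with v hv hv0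
    rw [Real.rpow_one, div_le_iff₀ hv0] at hv
    exact hv
  have e2 : ∀ᶠ v : ℝ in Filter.atTop,
      - Real.log (c4 / (2 * t * (t + 1))) ≤ δ * (t + 1) / 2 * v :=
    (Filter.tendsto_id.const_mul_atTop (by positivity)).eventually_ge_atTop _
  have e3 : ∀ᶠ v : ℝ in Filter.atTop, 1 / v ≤ δ := by
    filter_upwards [Filter.eventually_ge_atTop (1 / δ), Filter.eventually_gt_atTop 0] with v hv hv0
    rw [div_le_iff₀ hδ0] at hv
    rw [div_le_iff₀ hv0]
    linarith
  have e4 : ∀ᶠ u : ℝ in Filter.atTop, Real.log 2 < (t + 1) * ε / 4 * u :=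
    (Filter.tendsto_id.const_mul_atTop (by positivity)).eventually_gt_atTop _
  have hK : (0 : ℝ) < ε / 2 * c4 / (t * (2 + t)) := by positivity
  filter_upwards [Filter.eventually_ge_atTop (Real.exp 1), hll.eventually_ge_atTop 1,
    (tendsto_rpow_atTop ht).eventually_ge_atTop (max H0 2 + 1),
    t1.eventually_le_const hK, hll.eventually e1, hll.eventually e2, hll.eventually e3, e4,
    (tendsto_rpow_atTop (show 0 < a0 / 2 * t by positivity)).eventually_ge_atTop ((2 : ℝ) ^ a0)]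
    with u h1 h2 h3 h4 h5 h6 h7 h8 h9
  have hu0 : 0 < u := lt_of_lt_of_le (Real.exp_pos 1) h1
  refine ⟨h1, h2, h3, ?_, ?_, h7, h8, h9⟩
  · have hl0 : 0 < Real.log u := by linarith
    rw [div_le_iff₀ hu0, div_mul_eq_mul_div, le_div_iff₀ (by positivity)] at h4
    rw [div_le_iff₀ hc4, mul_div_assoc', div_mul_eq_mul_div, le_div_iff₀ hl0]
    have h10 : t * Real.log u * (2 + t * Real.log u) * Real.log u ≤
        Real.log u ^ 3 * (t * (2 + t)) := by
      have h11 : 2 + t * Real.log u ≤ (2 + t) * Real.log u := by nlinarith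
      have h12 : t * Real.log u * (2 + t * Real.log u) ≤
          t * Real.log u * ((2 + t) * Real.log u) :=
        mul_le_mul_of_nonneg_left h11 (by positivity)
      calc t * Real.log u * (2 + t * Real.log u) * Real.log u ≤
          t * Real.log u * ((2 + t) * Real.log u) * Real.log u :=
            mul_le_mul_of_nonneg_right h12 hl0.le
        _ = _ := by ring
    linarith
  · nlinarith

/-- There is `c > 0` such that for all `t, ε > 0` and all large `x` the interval
`(x, x + (log x) ^ t]` contains an integer without prime factors below `(log x) ^ (c t)` which has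
at most `(1 / (t + 1) + ε) log x / log log x` distinct prime factors. -/
theorem result : ∃ c : ℝ, 0 < c ∧ ∀ t ε : ℝ, 0 < t → 0 < ε → ∃ x0 : ℝ, ∀ x : ℝ, x0 ≤ x →
    ∃ n : ℕ, x < n ∧ (n : ℝ) ≤ x + Real.log x ^ t ∧
      (∀ p : ℕ, p.Prime → p ∣ n → Real.log x ^ (c * t) < p) ∧
      (n.primeFactors.card : ℝ) ≤ (1 / (t + 1) + ε) * (Real.log x / Real.log (Real.log x)) := by
  obtain ⟨a0, c4, ha0, -, hc4, H0, hH0, hlow⟩ := rough_lower
  refine ⟨a0 / 2, by positivity, fun t ε ht hε => ?_⟩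
  obtain ⟨δ, hδ0, hδ1, hδ2, hev⟩ := asymp t ε a0 c4 H0 ht hε ha0 hc4
  have hev2 : ∀ᶠ x : ℝ in Filter.atTop, Real.log x ^ t ≤ x := by
    have h1 : (fun x : ℝ => Real.log x ^ t) =o[Filter.atTop] fun x : ℝ => x ^ (1 : ℝ) :=
      isLittleO_log_rpow_rpow_atTop t zero_lt_one
    filter_upwards [h1.tendsto_div_nhds_zero.eventually_le_const zero_lt_one,
      Filter.eventually_gt_atTop 0] with x hx hx0
    rw [Real.rpow_one, div_le_iff₀ hx0] at hx
    linarith
  obtain ⟨x0, hx0⟩ := Filter.eventually_atTop.mp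
    ((Real.tendsto_log_atTop.eventually hev).and (hev2.and (Filter.eventually_ge_atTop (1 : ℝ))))
  refine ⟨x0, fun x hx => ?_⟩
  obtain ⟨⟨hu1, hl1, hA, hB, hC, hD, hE, hF⟩, hxt, hx1⟩ := hx0 x hx
  obtain ⟨u, hu⟩ : ∃ u : ℝ, u = Real.log x := ⟨_, rfl⟩
  rw [← hu] at hu1 hl1 hA hB hC hD hE hF hxt ⊢
  obtain ⟨lam, hlam⟩ : ∃ lam : ℝ, lam = Real.log u := ⟨_, rfl⟩
  rw [← hlam] at hl1 hB hC hD ⊢
  have hu0 : 0 < u := lt_of_lt_of_le (Real.exp_pos 1) hu1
  have hlam0 : 0 < lam := by linarith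
  obtain ⟨h, hh⟩ : ∃ h : ℕ, h = ⌊u ^ t⌋₊ := ⟨_, rfl⟩
  have hut : 0 < u ^ t := Real.rpow_pos_of_pos hu0 _
  have hhle : (h : ℝ) ≤ u ^ t := by rw [hh]; exact Nat.floor_le hut.le
  have hhge : u ^ t - 1 ≤ h := by
    have := Nat.lt_floor_add_one (u ^ t)
    rw [← hh] at this
    linarith
  have hhH0 : H0 ≤ h := by linarith [le_max_left H0 2]
  have hh2 : (2 : ℝ) ≤ h := by linarith [le_max_right H0 2]
  have hhhalf : u ^ t / 2 ≤ h := by linarith
  have hh0 : (0 : ℝ) < h := by linarith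
  have hlogh : 0 < Real.log h := Real.log_pos (by linarith)
  have hloghle : Real.log h ≤ t * lam := by
    rw [hlam, ← Real.log_rpow hu0]
    exact Real.log_le_log hh0 hhle
  obtain ⟨a, ha⟩ : ∃ a : ℕ, a = ⌊x⌋₊ + 1 := ⟨_, rfl⟩
  have hfx : ((⌊x⌋₊ : ℕ) : ℝ) ≤ x := Nat.floor_le (by linarith)
  have hfx2 : x < ((⌊x⌋₊ : ℕ) : ℝ) + 1 := Nat.lt_floor_add_one x
  have ha1 : 1 ≤ a := by omega
  obtain ⟨R, hR⟩ : ∃ R : Finset ℕ, R = Rgh a h ((h : ℝ) ^ a0) := ⟨_, rfl⟩
  have hRlow := hlow h hhH0 a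
  rw [← hR] at hRlow
  have hRsub : R ⊆ Ico a (a + h) := fun n hn => by
    rw [hR] at hn
    exact (mem_Rgh.1 hn).1
  have hnle : ∀ n ∈ R, x < (n : ℝ) ∧ (n : ℝ) ≤ x + u ^ t := by
    intro n hn
    have h1 := Finset.mem_Ico.1 (hRsub hn)
    have h2 : (a : ℝ) ≤ n := by exact_mod_cast h1.1
    have h3 : (n : ℝ) + 1 ≤ a + h := by exact_mod_cast h1.2
    have h4 : (a : ℝ) = ((⌊x⌋₊ : ℕ) : ℝ) + 1 := by rw [ha]; push_cast; rfl
    constructor <;> linarith
  obtain ⟨r, hr⟩ : ∃ r : ℝ, r = (R.card : ℝ) := ⟨_, rfl⟩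
  rw [← hr] at hRlow
  have hr0 : 0 < r := lt_of_lt_of_le (by positivity) hRlow
  by_contra hcon
  push Not at hcon
  have hmany : ∀ n ∈ R, (1 / (t + 1) + ε) * (u / lam) < (n.primeFactors.card : ℝ) := by
    intro n hn
    refine hcon n (hnle n hn).1 (hnle n hn).2 ?_
    intro p hp hpn
    have h1 : (h : ℝ) ^ a0 < p := by
      rw [hR] at hn
      exact (mem_Rgh.1 hn).2 p hp hpn
    refine lt_of_le_of_lt ?_ h1
    calc u ^ (a0 / 2 * t) ≤ u ^ (a0 / 2 * t) * (u ^ (a0 / 2 * t) / 2 ^ a0) := by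
          have h2 : 1 ≤ u ^ (a0 / 2 * t) / 2 ^ a0 := by
            rw [le_div_iff₀ (by positivity), one_mul]
            exact hF
          have h3 : 0 < u ^ (a0 / 2 * t) := Real.rpow_pos_of_pos hu0 _
          nlinarith
      _ = (u ^ t / 2) ^ a0 := by
          rw [Real.div_rpow hut.le (by norm_num), ← Real.rpow_mul hu0.le, mul_div_assoc',
            ← Real.rpow_add hu0]
          congr 2
          ring
      _ ≤ (h : ℝ) ^ a0 := Real.rpow_le_rpow (by positivity) hhhalf ha0.le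
  -- the two sums
  obtain ⟨N, hN⟩ : ∃ N : ℝ,
      N = ∑ n ∈ R, ((n.primeFactors.filter (fun p => ¬ p ≤ h)).card : ℝ) := ⟨_, rfl⟩
  have hsmall := small_sum a h R hRsub
  have hsum : r * ((1 / (t + 1) + ε) * (u / lam)) ≤
      ∑ n ∈ R, ((n.primeFactors.filter (fun p => p ≤ h)).card : ℝ) + N := by
    rw [hN, ← Finset.sum_add_distrib, hr, ← nsmul_eq_mul, ← Finset.sum_const]
    refine Finset.sum_le_sum fun n hn => ?_
    have h1 : (n.primeFactors.card : ℝ) = ((n.primeFactors.filter (fun p => p ≤ h)).card : ℝ) +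
        ((n.primeFactors.filter (fun p => ¬ p ≤ h)).card : ℝ) := by
      exact_mod_cast (Finset.card_filter_add_card_filter_not (s := n.primeFactors)
        (fun p => p ≤ h)).symm
    rw [← h1]
    exact (hmany n hn).le
  have hE2 : (h : ℝ) * (2 + Real.log h) ≤ r * (ε / 2 * (u / lam)) := by
    have h1 : (h : ℝ) ≤ r * (Real.log h / c4) := by
      rw [mul_div_assoc', le_div_iff₀ hc4]
      rw [mul_div_assoc', div_le_iff₀ hlogh] at hRlow
      linarith
    calc (h : ℝ) * (2 + Real.log h) ≤ r * (Real.log h / c4) * (2 + Real.log h) :=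
          mul_le_mul_of_nonneg_right h1 (by linarith)
      _ = r * (Real.log h * (2 + Real.log h) / c4) := by ring
      _ ≤ r * (t * lam * (2 + t * lam) / c4) := by
          apply mul_le_mul_of_nonneg_left _ hr0.le
          apply div_le_div_of_nonneg_right _ hc4.le
          exact mul_le_mul hloghle (by linarith) (by linarith) (by positivity)
      _ ≤ r * (ε / 2 * (u / lam)) := mul_le_mul_of_nonneg_left hB hr0.le
  have hNge : r * ((1 / (t + 1) + ε / 2) * (u / lam)) ≤ N := by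
    have h1 : r * ((1 / (t + 1) + ε) * (u / lam)) =
        r * ((1 / (t + 1) + ε / 2) * (u / lam)) + r * (ε / 2 * (u / lam)) := by ring
    linarith
  have hul : 0 < u / lam := by positivity
  -- the cut
  obtain ⟨V, hV⟩ : ∃ V : ℝ, V = N / lam := ⟨_, rfl⟩
  have ht1 : 0 < 1 / (t + 1) := by positivity
  have hN0 : 0 < N := lt_of_lt_of_le (by positivity) hNge
  have hrge : c4 * (u ^ t / (2 * (t * lam))) ≤ r := by
    refine le_trans ?_ hRlow
    apply mul_le_mul_of_nonneg_left _ hc4.le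
    calc u ^ t / (2 * (t * lam)) = (u ^ t / 2) / (t * lam) := by
          rw [div_div]
      _ ≤ (h : ℝ) / (t * lam) := div_le_div_of_nonneg_right hhhalf (by positivity)
      _ ≤ (h : ℝ) / Real.log h := div_le_div_of_nonneg_left hh0.le hlogh hloghle
  have hVge : u ^ (t + 1) * (c4 / (2 * t * (t + 1))) / lam ^ 3 ≤ V := by
    rw [hV, le_div_iff₀ hlam0]
    refine le_trans ?_ hNge
    calc u ^ (t + 1) * (c4 / (2 * t * (t + 1))) / lam ^ 3 * lam =
        c4 * (u ^ t / (2 * (t * lam))) * (1 / (t + 1) * (u / lam)) := by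
          rw [Real.rpow_add hu0, Real.rpow_one]
          field_simp
      _ ≤ r * ((1 / (t + 1) + ε / 2) * (u / lam)) := by
          refine mul_le_mul hrge ?_ (by positivity) hr0.le
          exact mul_le_mul_of_nonneg_right (by linarith) hul.le
  have hWpos : 0 < u ^ (t + 1) * (c4 / (2 * t * (t + 1))) / lam ^ 3 := by positivity
  have hlogV : (1 - δ) * ((t + 1) * lam) ≤ Real.log V := by
    refine hC.trans ?_
    have h1 := Real.log_le_log hWpos hVge
    rw [Real.log_div (by positivity) (by positivity), Real.log_mul (by positivity) (by positivity),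
      Real.log_rpow hu0, Real.log_pow, ← hlam] at h1
    push_cast at h1
    linarith
  have hlogV0 : 0 < Real.log V := lt_of_lt_of_le (mul_pos (by linarith) (by positivity)) hlogV
  have hV0 : 0 < V := lt_of_lt_of_le hWpos hVge
  have hV1 : 1 ≤ V := by
    by_contra hcon2
    rw [not_le] at hcon2
    exact absurd (Real.log_nonpos hV0.le hcon2.le) (not_le.2 hlogV0)
  have hX : ∀ n ∈ R, (n : ℝ) ≤ 2 * x := fun n hn => by linarith [(hnle n hn).2]
  have hlarge := large_sum a h ha1 R hRsub (2 * x) V hX hV1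
  rw [← hN, ← hr, Real.log_mul (by norm_num) (by linarith), ← hu] at hlarge
  -- conclusion
  have h1 : N * (1 - δ) ≤ N - V := by
    have h2 : V ≤ N * δ := by
      rw [hV, div_eq_mul_one_div]
      exact mul_le_mul_of_nonneg_left hD hN0.le
    linarith
  have h2 : N * (1 - δ) * ((1 - δ) * ((t + 1) * lam)) ≤ (N - V) * Real.log V :=
    mul_le_mul h1 hlogV (mul_nonneg (by linarith) (by positivity)) (by nlinarith)
  have h3 : r * ((1 / (t + 1) + ε / 2) * (u / lam)) * ((1 - δ) * ((1 - δ) * ((t + 1) * lam))) ≤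
      N * ((1 - δ) * ((1 - δ) * ((t + 1) * lam))) := by
    apply mul_le_mul_of_nonneg_right hNge
    exact mul_nonneg (by linarith) (mul_nonneg (by linarith) (by positivity))
  have h4 : r * ((1 / (t + 1) + ε / 2) * (u / lam)) * ((1 - δ) * ((1 - δ) * ((t + 1) * lam))) =
      r * (u * ((1 + (t + 1) * ε / 2) * (1 - δ) * (1 - δ))) := by
    field_simp
  have h5 : r * (u * (1 + (t + 1) * ε / 4)) ≤
      r * (u * ((1 + (t + 1) * ε / 2) * (1 - δ) * (1 - δ))) :=
    mul_le_mul_of_nonneg_left (mul_le_mul_of_nonneg_left hδ2 hu0.le) hr0.le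
  have h6 : r * (Real.log 2 + u) < r * (u * (1 + (t + 1) * ε / 4)) := by
    apply mul_lt_mul_of_pos_left _ hr0
    linarith
  linarith

end Pool.Agent.Results.MP_7ba156_nt.FewFactors
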