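import Pool.Agent.Lib_MP_7ba156_hw.Main

/-!
# MP_7ba156_nt: every translate of a suitable Hilbert cube of size `C (log x) ^ 2` contains a prime
-/

set_option autoImplicit false

namespace Pool.Agent.Results.MP_7ba156_nt.HilbertCubes

open Finset

/-- There is `C` such that for `ε > 0`, large `x` and `1 ≤ L ≤ log x` there are `d 0, ..., d (m - 1)` with
`2 ^ m L ≤ C (log x) ^ 2` and sum at most `x ^ (1 + ε)` such that for every `n ≤ x` one of the windows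
`[n + s, n + s + L)`, `s` a subset sum of the `d i`, contains a prime. -/
theorem result : ∃ C : ℝ, 0 < C ∧ ∀ ε : ℝ, 0 < ε → ∃ x₀ : ℝ, ∀ x : ℝ, x₀ ≤ x → ∀ L : ℕ, 1 ≤ L →
    (L : ℝ) ≤ Real.log x → ∃ (m : ℕ) (d : ℕ → ℕ), (2 : ℝ) ^ m * L ≤ C * Real.log x ^ 2 ∧
      (∑ i ∈ range m, (d i : ℝ)) ≤ x ^ (1 + ε) ∧
      ∀ n : ℕ, (n : ℝ) ≤ x → ∃ I ⊆ range m, ∃ p : ℕ, p.Prime ∧
        n + ∑ i ∈ I, d i ≤ p ∧ p < n + ∑ i ∈ I, d i + L :=
  Pool.MP_7ba156.HW.main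

end Pool.Agent.Results.MP_7ba156_nt.HilbertCubes
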